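import Pool.Agent.W851.BE.Stm

/-!
# Uniform averages over the repelling fixed points when the weight in `ℍ_K` is negligible
-/

open Polynomial Topology Filter MeasureTheory
open scoped ENNReal

namespace Pool.Agent.W851.BE.Unif

open Pool.Agent.W95.BK Pool.Agent.W851.BE

universe u

variable {K : Type u} [NontriviallyNormedField K] [IsUltrametricDist K] [IsAlgClosed K]

lemma RFixH_sub (f : RMap K) : RFixH f ⊆ RF f := Set.subset_union_left

/-- the sum of the weights over `RFixH` as a real number -/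
lemma tsum_eq (f : RMap K) (hfin : (RFixH f).Finite) :
    (∑' x : RFixH f, (localDeg f x : ℝ≥0∞)) =
      ENNReal.ofReal (∑ x ∈ hfin.toFinset, (localDeg f x : ℝ)) := by
  have h1 : (∑' x : RFixH f, (localDeg f x : ℝ≥0∞)) =
      ∑' x : (hfin.toFinset : Set (P1B K)), (localDeg f x : ℝ≥0∞) := by
    rw [Set.Finite.coe_toFinset]
  rw [h1, Finset.tsum_subtype' hfin.toFinset (fun x => (localDeg f x : ℝ≥0∞))]
  rw [ENNReal.ofReal_sum_of_nonneg (fun i _ => by positivity)]
  refine Finset.sum_congr rfl fun x _ => ?_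
  rw [ENNReal.ofReal_natCast]

theorem main (hLD1 : S_LD1.{u}) (R : RMap K) (hd : 2 ≤ R.d) (ρ : Measure (P1B K))
    [IsProbabilityMeasure ρ] (hC : Concl R ρ)
    (hV : Tendsto (fun n : ℕ => (∑' x : RFixH (R.iter n), (localDeg (R.iter n) x : ℝ≥0∞)) /
      (R.d : ℝ≥0∞) ^ n) atTop (𝓝 0)) :
    Tendsto (fun n : ℕ => ((RF (R.iter n)).ncard : ℝ) / (R.d : ℝ) ^ n) atTop (𝓝 1) ∧
    ∀ φ : C(P1B K, ℝ), Tendsto (fun n : ℕ => (∑ᶠ x ∈ RF (R.iter n), φ x) /
      ((RF (R.iter n)).ncard : ℝ)) atTop (𝓝 (∫ x, φ x ∂ρ)) := by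
  classical
  obtain ⟨hfin, hconv⟩ := hC
  have hd0 : (0 : ℝ) < R.d := by exact_mod_cast (by omega : 0 < R.d)
  -- finite sets
  set W : ℕ → ℝ := fun n => if h : (RFixH (R.iter n)).Finite then
    ∑ x ∈ h.toFinset, (localDeg (R.iter n) x : ℝ) else 0 with hW
  have hfinH : ∀ n, 1 ≤ n → (RFixH (R.iter n)).Finite := fun n hn =>
    (hfin n hn).subset (RFixH_sub _)
  -- the weight of the points in `ℍ_K` is negligible
  have hW0 : Tendsto (fun n => W n / (R.d : ℝ) ^ n) atTop (𝓝 0) := by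
    have h1 := (ENNReal.tendsto_toReal ENNReal.zero_ne_top).comp hV
    rw [ENNReal.toReal_zero] at h1
    refine h1.congr' ?_
    filter_upwards [eventually_ge_atTop 1] with n hn
    have hf := hfinH n hn
    simp only [Function.comp, hW, dif_pos hf]
    rw [tsum_eq _ hf, ENNReal.toReal_div, ENNReal.toReal_ofReal (Finset.sum_nonneg
      fun i _ => by positivity), ENNReal.toReal_pow, ENNReal.toReal_natCast]
  -- comparison of the two sums
  have hcmp : ∀ n, 1 ≤ n → ∀ φ : C(P1B K, ℝ), ∀ M : ℝ, (∀ x, |φ x| ≤ M) →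
      |(∑ᶠ x ∈ RF (R.iter n), (localDeg (R.iter n) x : ℝ) * φ x) -
        ∑ᶠ x ∈ RF (R.iter n), φ x| ≤ M * W n := by
    intro n hn φ M hM
    have hf := hfinH n hn
    have hF := hfin n hn
    simp only [hW, dif_pos hf]
    rw [finsum_mem_eq_finite_toFinset_sum _ hF, finsum_mem_eq_finite_toFinset_sum _ hF,
      ← Finset.sum_sub_distrib]
    have hsub : hf.toFinset ⊆ hF.toFinset := by
      intro x hx
      rw [Set.Finite.mem_toFinset] at hx ⊢
      exact RFixH_sub _ hx
    rw [← Finset.sum_subset hsub]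
    · rw [Finset.mul_sum]
      refine (Finset.abs_sum_le_sum_abs _ _).trans (Finset.sum_le_sum fun x hx => ?_)
      rw [Set.Finite.mem_toFinset] at hx
      obtain ⟨y, -, -, -, h2⟩ := hx
      have h2' : (2 : ℝ) ≤ localDeg (R.iter n) x := by exact_mod_cast h2
      have e : (localDeg (R.iter n) x : ℝ) * φ x - φ x =
        ((localDeg (R.iter n) x : ℝ) - 1) * φ x := by ring
      rw [e, abs_mul, abs_of_nonneg (by linarith)]
      have hM0 : 0 ≤ M := (abs_nonneg _).trans (hM x)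
      have := hM x
      nlinarith [abs_nonneg (φ x)]
    · intro x hx hx'
      rw [Set.Finite.mem_toFinset] at hx hx'
      rcases hx with hx | ⟨h1, h2, h3⟩
      · exact absurd hx hx'
      · rw [hLD1 K (R.iter n) x h1 h2 (by linarith)]
        simp
  -- the unweighted sums
  have hU : ∀ φ : C(P1B K, ℝ), Tendsto (fun n : ℕ => (∑ᶠ x ∈ RF (R.iter n), φ x) /
      (R.d : ℝ) ^ n) atTop (𝓝 (∫ x, φ x ∂ρ)) := by
    intro φ
    by_cases hne : Nonempty (P1B K)
    swap
    · exact absurd ⟨OnePoint.infty⟩ hne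
    have hcpt : CompactSpace (P1B K) := inferInstance
    obtain ⟨M, hM⟩ : ∃ M : ℝ, ∀ x, |φ x| ≤ M := by
      refine ⟨‖φ‖, fun x => ?_⟩
      exact φ.norm_coe_le_norm x
    have h1 := hconv φ
    have h2 : Tendsto (fun n : ℕ => M * (W n / (R.d : ℝ) ^ n)) atTop (𝓝 0) := by
      have := hW0.const_mul M
      rwa [mul_zero] at this
    have h3 : Tendsto (fun n : ℕ => (∑ᶠ x ∈ RF (R.iter n), (localDeg (R.iter n) x : ℝ) * φ x) /
        (R.d : ℝ) ^ n - (∑ᶠ x ∈ RF (R.iter n), φ x) / (R.d : ℝ) ^ n) atTop (𝓝 0) := by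
      refine squeeze_zero_norm' ?_ h2
      filter_upwards [eventually_ge_atTop 1] with n hn
      have hp : (0 : ℝ) < (R.d : ℝ) ^ n := pow_pos hd0 n
      rw [← sub_div, Real.norm_eq_abs, abs_div, abs_of_pos hp, ← mul_div_assoc]
      exact div_le_div_of_nonneg_right (hcmp n hn φ M hM) hp.le
    have h4 := h1.sub h3
    rw [sub_zero] at h4
    refine h4.congr fun n => ?_
    ring
  have hcard : Tendsto (fun n : ℕ => ((RF (R.iter n)).ncard : ℝ) / (R.d : ℝ) ^ n) atTop
      (𝓝 1) := by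
    have h1 := hU (ContinuousMap.const _ 1)
    simp only [ContinuousMap.const_apply, integral_const, probReal_univ, smul_eq_mul,
      mul_one] at h1
    refine h1.congr' ?_
    filter_upwards [eventually_ge_atTop 1] with n hn
    have hF := hfin n hn
    rw [finsum_mem_eq_finite_toFinset_sum _ hF, Set.ncard_eq_toFinset_card _ hF]
    simp
  refine ⟨hcard, fun φ => ?_⟩
  have h1 := (hU φ).div hcard one_ne_zero
  rw [div_one] at h1
  refine h1.congr fun n => ?_
  have hp : (R.d : ℝ) ^ n ≠ 0 := (pow_pos hd0 n).ne'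
  simp only [Pi.div_apply]
  rw [div_div_div_cancel_right₀ hp]

end Pool.Agent.W851.BE.Unif
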