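import Pool.Agent.W95.BK.Stm

/-!
# Statements of the parts of project BE
(equidistribution of all repelling periodic points on the Berkovich projective line)
-/

open Polynomial Topology Filter MeasureTheory
open scoped ENNReal

namespace Pool.Agent.W851.BE

open Pool.Agent.W95.BK

universe u

section defs
variable {K : Type u} [NontriviallyNormedField K] [IsUltrametricDist K]

/-- The point `ζ_{a,t}` of the Berkovich projective line (`t > 0`). -/
noncomputable def zt (a : K) (t : ℝ) : P1B K :=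
  if h : 0 < t then ((gauss a t h : BA K) : P1B K) else OnePoint.infty

lemma zt_pos (a : K) {t : ℝ} (h : 0 < t) : zt a t = ((gauss a t h : BA K) : P1B K) := by
  simp [zt, h]

/-- `c` is a repelling fixed point of `f` in `K`. -/
def CR (f : RMap K) (c : K) : Prop :=
  f.act ((cl c : BA K) : P1B K) = ((cl c : BA K) : P1B K) ∧
    1 < sphDeriv f ((cl c : BA K) : P1B K)

/-- `Z` represents distinct directions at `ζ_{a,r}` (other than the one of `∞`). -/
def dirs (a : K) (r : ℝ) (Z : Finset K) : Prop :=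
  (∀ z ∈ Z, ‖z - a‖ ≤ r) ∧ ∀ z ∈ Z, ∀ z' ∈ Z, z ≠ z' → r ≤ ‖z - z'‖

/-- `ζ_{a,r}` is a repelling fixed point of type II whose upward germ is fixed. -/
def TA (f : RMap K) (a : K) (r : ℝ) : Prop :=
  0 < r ∧ (∃ c : K, ‖c‖ = r) ∧ f.act (zt a r) = zt a r ∧ 2 ≤ localDeg f (zt a r) ∧
    ∃ r', r < r' ∧ Nw f a r' + 1 = Iw f a r

/-- `ζ_{a,r}` is an indifferent fixed point of type II whose upward germ is not fixed. -/
def TB (f : RMap K) (a : K) (r : ℝ) : Prop :=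
  0 < r ∧ (∃ c : K, ‖c‖ = r) ∧ f.act (zt a r) = zt a r ∧ localDeg f (zt a r) = 1 ∧
    ∀ r', r < r' → Iw f a r ≤ Nw f a r'

def PA (f : RMap K) (x : BA K) : Prop :=
  ∃ (a : K) (r : ℝ) (hr : 0 < r), x = gauss a r hr ∧ TA f a r

def PB (f : RMap K) (x : BA K) : Prop :=
  ∃ (a : K) (r : ℝ) (hr : 0 < r), x = gauss a r hr ∧ TB f a r

/-- the types A and B on the branch of `b` -/
def EA (f : RMap K) (b : K) (s : ℝ) : Prop :=
  f.act (zt b s) = zt b s ∧ 2 ≤ localDeg f (zt b s) ∧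
    ∀ ε > 0, ∃ t, s < t ∧ t < s + ε ∧ f.act (zt b t) = zt b t ∧ localDeg f (zt b t) = 1

def EB (f : RMap K) (b : K) (s : ℝ) : Prop :=
  f.act (zt b s) = zt b s ∧ localDeg f (zt b s) = 1 ∧
    ∀ ε > 0, ∃ t, s < t ∧ t < s + ε ∧ f.act (zt b t) ≠ zt b t

/-- `g` has local degree one on `{ζ_{a,t} : t ∈ I}` and maps it isometrically onto a vertical
arc. -/
def nice (g : RMap K) (a : K) (I : Set ℝ) : Prop :=
  (∀ t ∈ I, 0 < t ∧ localDeg g (zt a t) = 1) ∧ ∃ (c : K) (κ : ℝ), 0 < κ ∧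
    ((∀ t ∈ I, g.act (zt a t) = zt c (κ * t)) ∨ (∀ t ∈ I, g.act (zt a t) = zt c (κ / t)))

/-- `∞` is a non-repelling fixed point of `f`. -/
def NRI (f : RMap K) : Prop :=
  f.Q.coeff f.d = 0 ∧ ‖f.Q.coeff (f.d - 1)‖ ≤ ‖f.P.coeff f.d‖

/-- Repelling fixed points of `f` on the Berkovich projective line: the fixed points of types
II, III, IV with local degree at least two, and the classical fixed points with multiplier of
absolute value larger than one. -/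
def RF (f : RMap K) : Set (P1B K) :=
  RFixH f ∪ {x | (x = OnePoint.infty ∨ ∃ c : K, x = ((cl c : BA K) : P1B K)) ∧
    f.act x = x ∧ 1 < sphDeriv f x}

/-- `z ↦ 1 / (z - c)` -/
noncomputable def mob (c : K) : RMap K where
  P := 1
  Q := X - C c
  d := 1
  cop := isCoprime_one_left
  deg_eq := by simp
  pos := le_rfl

/-- `w ↦ c + 1 / w` -/
noncomputable def mobi (c : K) : RMap K where
  P := C c * X + 1
  Q := X
  d := 1
  cop := ⟨1, -C c, by ring⟩
  deg_eq := by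
    have h1 : (C c * X + 1 : K[X]).natDegree ≤ 1 := by
      compute_degree
    rw [natDegree_X]
    exact max_eq_right h1
  pos := le_rfl

/-- `R` conjugated by `z ↦ 1 / (z - c)` -/
noncomputable def conjM [IsAlgClosed K] (R : RMap K) (c : K) : RMap K :=
  (mob c).comp (R.comp (mobi c))

/-- Equilibrium integrals of the repelling fixed points: the conclusion of the theorem. -/
def Concl [IsAlgClosed K] (R : RMap K) (ρ : Measure (P1B K)) : Prop :=
  (∀ n, 1 ≤ n → (RF (R.iter n)).Finite) ∧ ∀ φ : C(P1B K, ℝ),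
    Tendsto (fun n : ℕ => (∑ᶠ x ∈ RF (R.iter n), (localDeg (R.iter n) x : ℝ) * φ x) /
      (R.d : ℝ) ^ n) atTop (𝓝 (∫ x, φ x ∂ρ))

end defs

/-! ### A. points `ζ_{a,t}` and local degrees -/

def S_ZT : Prop := ∀ (K : Type u) [NontriviallyNormedField K] [IsUltrametricDist K]
  [IsAlgClosed K],
  (∀ (a a' : K) (t t' : ℝ), 0 < t → 0 < t' → (zt a t = zt a' t' ↔ t = t' ∧ ‖a - a'‖ ≤ t)) ∧
  (∀ a : K, ContinuousOn (fun t => zt a t) (Set.Ioi 0)) ∧
  (∀ (a : K) (t : ℝ) (h : 0 < t), HK (gauss a t h)) ∧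
  (∀ (a : K) (t : ℝ) (x : BA K), 0 < t → (∀ b : K, lam x b = max ‖a - b‖ t) →
    (x : P1B K) = zt a t)

/-- local degree from a neighbourhood containing only one preimage -/
def S_UNIQ : Prop := ∀ (K : Type u) [NontriviallyNormedField K] [IsUltrametricDist K]
  [IsAlgClosed K] (f : RMap K) (x y : BA K), HK x → f.act (x : P1B K) = (y : P1B K) →
  ∀ U : Set (P1B K), IsOpen U → (x : P1B K) ∈ U →
  (∀ w ∈ closure U, f.act w = (y : P1B K) → w = (x : P1B K)) →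
  ∀ m : ℕ, (∀ᶠ b in toward (y : P1B K), cnt f U b = m) → localDeg f (x : P1B K) = m

/-- local injectivity at points of local degree one -/
def S_INJ : Prop := ∀ (K : Type u) [NontriviallyNormedField K] [IsUltrametricDist K]
  [IsAlgClosed K] (f : RMap K) (x : BA K), HK x → localDeg f (x : P1B K) = 1 →
  ∃ U ∈ 𝓝 (x : P1B K), ∀ y z : BA K, HK y → HK z → (y : P1B K) ∈ U → (z : P1B K) ∈ U →
    f.act (y : P1B K) = f.act (z : P1B K) → y = z

/-- local degree at classical fixed points with non-zero multiplier -/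
def S_LD1 : Prop := ∀ (K : Type u) [NontriviallyNormedField K] [IsUltrametricDist K]
  [IsAlgClosed K] (f : RMap K) (x : P1B K),
  (x = OnePoint.infty ∨ ∃ c : K, x = ((cl c : BA K) : P1B K)) →
  f.act x = x → 0 < sphDeriv f x → localDeg f x = 1

/-- local degrees of maps of degree one -/
def S_DEG1 : Prop := ∀ (K : Type u) [NontriviallyNormedField K] [IsUltrametricDist K]
  [IsAlgClosed K] (f : RMap K) (x : BA K), HK x →
  localDeg f (x : P1B K) ≤ f.d ∧ (f.d = 1 → localDeg f (x : P1B K) = 1)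

/-- vertical arcs in a pole-free disc -/
def S_OFF : Prop := ∀ (K : Type u) [NontriviallyNormedField K] [IsUltrametricDist K]
  [IsAlgClosed K] (g : RMap K) (a : K) (T : ℝ), 0 < T →
  (∀ w : K, g.Q.eval w = 0 → T ≤ ‖w - a‖) → ∃ (c : K) (ψ : ℝ → ℝ),
    (∀ t, 0 < t → t < T → 0 < ψ t ∧ g.act (zt a t) = zt c (ψ t)) ∧
    (∀ s t, 0 < s → s ≤ t → t < T → localDeg g (zt a s) ≤ localDeg g (zt a t) ∧
      ψ s * (t / s) ^ localDeg g (zt a s) ≤ ψ t ∧ ψ t ≤ ψ s * (t / s) ^ localDeg g (zt a t)) ∧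
    (∀ s, 0 < s → s < T → ∃ ε > 0, ∀ t, s ≤ t → t < s + ε →
      localDeg g (zt a t) = localDeg g (zt a s))

/-- Laurent expansion on annuli: away from finitely many radii there is a constant `c` such that
`|g - c|` is a monomial with non-zero exponent on the skeleton -/
def S_LAU : Prop := ∀ (K : Type u) [NontriviallyNormedField K] [IsUltrametricDist K]
  [IsAlgClosed K] (g : RMap K) (b : K), ∃ B : Finset ℝ, ∀ u v : ℝ, 0 ≤ u → u < v →
  (∀ β ∈ B, ¬ (u < β ∧ β < v)) →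
  (∀ w : K, g.Q.eval w = 0 → ¬ (u < ‖w - b‖ ∧ ‖w - b‖ < v)) ∧
  ∃ (c : K) (κ : ℝ) (e : ℤ), 0 < κ ∧ e ≠ 0 ∧
    ∀ t, u < t → t < v → gn b t (g.P - C c * g.Q) = κ * t ^ e * gn b t g.Q

/-- the skeleton of an annulus -/
def S_SK : Prop := ∀ (K : Type u) [NontriviallyNormedField K] [IsUltrametricDist K]
  [IsAlgClosed K] (g : RMap K) (b c : K) (u v κ : ℝ) (e : ℤ), 0 ≤ u → u < v → 0 < κ → e ≠ 0 →
  (∀ w : K, g.Q.eval w = 0 → ¬ (u < ‖w - b‖ ∧ ‖w - b‖ < v)) →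
  (∀ t, u < t → t < v → gn b t (g.P - C c * g.Q) = κ * t ^ e * gn b t g.Q) →
  ∀ t, u < t → t < v → g.act (zt b t) = zt c (κ * t ^ e) ∧ localDeg g (zt b t) = e.natAbs

/-- the image of a point `ζ_{a,t}` is such a point -/
def S_IMG : Prop := ∀ (K : Type u) [NontriviallyNormedField K] [IsUltrametricDist K]
  [IsAlgClosed K] (g : RMap K) (a : K) (t : ℝ), 0 < t →
  ∃ (c : K) (s : ℝ), 0 < s ∧ g.act (zt a t) = zt c s

/-! ### B. short vertical arcs and the count of isometric pieces -/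

/-- pieces of a branch -/
def S_BR : Prop := ∀ (K : Type u) [NontriviallyNormedField K] [IsUltrametricDist K]
  [IsAlgClosed K] (g : RMap K) (b : K), ∃ B : Finset ℝ, ∀ u v : ℝ, 0 ≤ u → u < v →
  (∀ β ∈ B, ¬ (u < β ∧ β < v)) →
  (∀ t, u < t → t < v → 2 ≤ localDeg g (zt b t)) ∨ nice g b (Set.Ioo u v)

/-- a short vertical arc anywhere is cut into at most four isometric pieces -/
def S_P : Prop := ∀ (K : Type u) [NontriviallyNormedField K] [IsUltrametricDist K]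
  [IsAlgClosed K] (g : RMap K), ∃ η : ℝ, 1 < η ∧ ∀ (a : K) (s : ℝ), 0 < s →
  ∃ I : Fin 4 → Set ℝ, (∀ j, (I j).OrdConnected ∧ I j ⊆ Set.Icc s (s * η) ∧ nice g a (I j)) ∧
    ∀ t ∈ Set.Icc s (s * η), localDeg g (zt a t) = 1 → ∃ j, t ∈ I j

/-- separated points of local degree one on a vertical arc -/
def sep {K : Type u} [NontriviallyNormedField K] [IsUltrametricDist K] (f : RMap K) (a : K)
    (X : Finset ℝ) : Prop :=
  (∀ t ∈ X, 0 < t ∧ localDeg f (zt a t) = 1) ∧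
    ∀ t ∈ X, ∀ t' ∈ X, t < t' → ∃ u, t < u ∧ u < t' ∧ localDeg f (zt a u) ≠ 1

def S_K : Prop := ∀ (K : Type u) [NontriviallyNormedField K] [IsUltrametricDist K]
  [IsAlgClosed K] (R : RMap K), ∃ η : ℝ, 1 < η ∧ ∀ (n : ℕ) (a : K) (s : ℝ), 0 < s →
  ∀ X : Finset ℝ, (∀ t ∈ X, s ≤ t ∧ t ≤ s * η) → sep (R.iter n) a X → X.card ≤ 4 ^ (n / 3 + 1)

def S_K2 : Prop := ∀ (K : Type u) [NontriviallyNormedField K] [IsUltrametricDist K]
  [IsAlgClosed K] (R : RMap K) (δ ρ : ℝ), 0 < δ → ∃ C : ℕ, ∀ (n : ℕ) (a : K) (X : Finset ℝ),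
  (∀ t ∈ X, δ ≤ t ∧ t ≤ ρ) → sep (R.iter n) a X → X.card ≤ C * 4 ^ (n / 3)

/-- rigidity of arcs of local degree one with fixed end points -/
def S_ISOM : Prop := ∀ (K : Type u) [NontriviallyNormedField K] [IsUltrametricDist K]
  [IsAlgClosed K] (f : RMap K) (b : K) (s s' : ℝ), 0 < s → s < s' →
  (∀ u, s ≤ u → u ≤ s' → localDeg f (zt b u) = 1) → f.act (zt b s) = zt b s →
  f.act (zt b s') = zt b s' → ∀ u, s ≤ u → u ≤ s' → f.act (zt b u) = zt b u

/-- separation of the points of type A (or of type B) on a branch -/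
def S_SEP : Prop := ∀ (K : Type u) [NontriviallyNormedField K] [IsUltrametricDist K]
  [IsAlgClosed K] (f : RMap K) (b : K) (E : Finset ℝ) (δ ρ : ℝ), 0 < δ → δ ≤ ρ →
  (∀ s ∈ E, δ ≤ s ∧ s ≤ ρ) → ((∀ s ∈ E, EA f b s) ∨ (∀ s ∈ E, EB f b s)) →
  ∃ X : Finset ℝ, X.card = E.card ∧ (∀ t ∈ X, δ ≤ t ∧ t ≤ 2 * ρ) ∧ sep f b X

/-! ### C. the types A and B -/

/-- right continuity of `Iw` -/
def S_IRC : Prop := ∀ (K : Type u) [NontriviallyNormedField K] [IsUltrametricDist K]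
  [IsAlgClosed K] (f : RMap K) (a : K) (r : ℝ), 0 < r →
  ∃ r', r < r' ∧ ∀ t, r < t → t < r' → Iw f a t ≤ Iw f a r

/-- no jump at radii outside the value group -/
def S_NT3 : Prop := ∀ (K : Type u) [NontriviallyNormedField K] [IsUltrametricDist K]
  [IsAlgClosed K] (f : RMap K) (a : K) (r : ℝ), 0 < r → (¬ ∃ c : K, ‖c‖ = r) →
  ∃ r', r < r' ∧ ∀ t, r < t → t < r' → Nw f a t = Nw f a r

def S_TA1 : Prop := ∀ (K : Type u) [NontriviallyNormedField K] [IsUltrametricDist K]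
  [IsAlgClosed K] (f : RMap K) (a : K) (r : ℝ), TA f a r → ∃ r', r < r' ∧ ∀ t, r < t → t < r' →
  (∃ c : K, ‖c‖ = t) → f.act (zt a t) = zt a t ∧ localDeg f (zt a t) = 1

def S_TB1 : Prop := ∀ (K : Type u) [NontriviallyNormedField K] [IsUltrametricDist K]
  [IsAlgClosed K] (f : RMap K) (a : K) (r : ℝ), TB f a r → ∃ r', r < r' ∧ ∀ t, r < t → t < r' →
  (∃ c : K, ‖c‖ = t) → f.act (zt a t) ≠ zt a t

/-- upward germs are mapped to upward germs as long as the orbit avoids the tree of the poles -/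
def S_UP : Prop := ∀ (K : Type u) [NontriviallyNormedField K] [IsUltrametricDist K]
  [IsAlgClosed K] (R : RMap K) (n : ℕ) (a : K) (r : ℝ), 0 < r →
  (∀ j < n, ∀ (b : K) (s : ℝ), R.Q.eval b = 0 → 0 < s → (R.iter j).act (zt a r) ≠ zt b s) →
  ∃ (c : K) (κ ε : ℝ), 0 < κ ∧ 0 < ε ∧ ∀ t, r ≤ t → t < r + ε →
    (R.iter n).act (zt a t) = zt c (κ * (t / r) ^ localDeg (R.iter n) (zt a r))

/-- every cycle of type A or B hits the tree of the poles -/
def S_HIT : Prop := ∀ (K : Type u) [NontriviallyNormedField K] [IsUltrametricDist K]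
  [IsAlgClosed K] (R : RMap K) (n : ℕ) (a : K) (r : ℝ), 1 ≤ n →
  (TA (R.iter n) a r ∨ TB (R.iter n) a r) → ∃ i < n, ∃ (b : K) (s : ℝ), R.Q.eval b = 0 ∧ 0 < s ∧
    (R.iter i).act (zt a r) = zt b s ∧ (EA (R.iter n) b s ∨ EB (R.iter n) b s)

/-- bounded radii -/
def S_BDD : Prop := ∀ (K : Type u) [NontriviallyNormedField K] [IsUltrametricDist K]
  [IsAlgClosed K] (R : RMap K), 2 ≤ R.d → NRI R → ∃ δ ρ : ℝ, 0 < δ ∧ δ ≤ ρ ∧ ∀ n, 1 ≤ n →
  ∀ (b : K) (s : ℝ), R.Q.eval b = 0 → 0 < s → (EA (R.iter n) b s ∨ EB (R.iter n) b s) →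
    δ ≤ s ∧ s ≤ ρ

/-- the number of points of types A and B of `R^n` is `O(n 4^(n/3))` -/
def S_AB : Prop := ∀ (K : Type u) [NontriviallyNormedField K] [IsUltrametricDist K]
  [IsAlgClosed K] (R : RMap K), 2 ≤ R.d → NRI R → ∃ C : ℕ, ∀ n, 1 ≤ n → ∀ S : Finset (BA K),
  (∀ x ∈ S, PA (R.iter n) x ∨ PB (R.iter n) x) → S.card ≤ C * n * 4 ^ (n / 3)

/-! ### D. the fixed point formula -/

/-- discs with a preimage of their boundary point contain a fixed point or a pole -/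
def S_N0 : Prop := ∀ (K : Type u) [NontriviallyNormedField K] [IsUltrametricDist K]
  [IsAlgClosed K] (f : RMap K) (z : K) (t : ℝ), 0 < t → 1 ≤ Nw f z t →
  ∃ w : K, ‖w - z‖ < t ∧ ((f.P - X * f.Q).eval w = 0 ∨ f.Q.eval w = 0)

def S_CR1 : Prop := ∀ (K : Type u) [NontriviallyNormedField K] [IsUltrametricDist K]
  [IsAlgClosed K] (f : RMap K) (c : K), CR f c → ∀ t, 0 < t → 1 ≤ Nw f c t

def S_CR2 : Prop := ∀ (K : Type u) [NontriviallyNormedField K] [IsUltrametricDist K]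
  [IsAlgClosed K] (f : RMap K) (c : K) (k : ℕ), 1 ≤ k → (∀ t, 0 < t → k ≤ Nw f c t) →
  CR f c ∧ k = 1

/-- all preimages of `ζ_{a,r}` in the closed disc -/
def S_EQ : Prop := ∀ (K : Type u) [NontriviallyNormedField K] [IsUltrametricDist K]
  [IsAlgClosed K] (f : RMap K) (a c : K) (r : ℝ), 0 < r → ‖c‖ = r → ∃ Z : Finset K, dirs a r Z ∧
  (f.act (zt a r) = zt a r → Iw f a r ≤ ∑ z ∈ Z, Nw f z r + localDeg f (zt a r)) ∧
  (f.act (zt a r) ≠ zt a r → Iw f a r ≤ ∑ z ∈ Z, Nw f z r)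

open Classical in
/-- the fixed point inequality for discs, upper bound for the repelling weight -/
def S_CT : Prop := ∀ (K : Type u) [NontriviallyNormedField K] [IsUltrametricDist K]
  [IsAlgClosed K] (f : RMap K) (I : Finset (BA K)) (Cl : Finset K) (J : Finset (K × ℝ)) (a : K)
  (r : ℝ), (∀ x ∈ I, XF f x) → (∀ c ∈ Cl, CR f c) → (∀ p ∈ J, 0 < p.2) →
  (∀ p ∈ J, ∀ q ∈ J, p ≠ q → max p.2 q.2 ≤ ‖p.1 - q.1‖) →
  (∀ x ∈ I, ∀ q ∈ J, q.2 ≤ lam x q.1) → (∀ c ∈ Cl, ∀ q ∈ J, q.2 ≤ ‖c - q.1‖) →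
  (∀ x ∈ I, lam x a < r) → (∀ c ∈ Cl, ‖c - a‖ < r) → (∀ p ∈ J, ‖p.1 - a‖ < r ∧ p.2 ≤ r) →
  0 < r → ∑ x ∈ I, (localDeg f (x : P1B K) - if PA f x then 1 else 0) + Cl.card +
    ∑ p ∈ J, Nw f p.1 p.2 ≤ Nw f a r

/-- the fixed point inequality for discs, lower bound -/
def S_EXH : Prop := ∀ (K : Type u) [NontriviallyNormedField K] [IsUltrametricDist K]
  [IsAlgClosed K] (f : RMap K) (a : K) (r : ℝ), 2 ≤ f.d → 0 < r →
  ∃ (I : Finset (BA K)) (Cl : Finset K) (S : Finset (BA K)),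
    (∀ x ∈ I, XF f x ∧ lam x a < r) ∧ (∀ c ∈ Cl, CR f c ∧ ‖c - a‖ < r) ∧
    (∀ x ∈ S, PB f x ∧ lam x a < r) ∧
    Nw f a r ≤ ∑ x ∈ I, localDeg f (x : P1B K) + Cl.card + S.card

/-- large discs -/
def S_NBIG : Prop := ∀ (K : Type u) [NontriviallyNormedField K] [IsUltrametricDist K]
  [IsAlgClosed K] (f : RMap K), f.Q.coeff f.d = 0 → ∃ r, 0 < r ∧ f.d ≤ Nw f 0 r + 1

/-- iterates of maps with a non-repelling fixed point at `∞` -/
def S_NRIN : Prop := ∀ (K : Type u) [NontriviallyNormedField K] [IsUltrametricDist K]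
  [IsAlgClosed K] (R : RMap K), NRI R → ∀ n : ℕ, NRI (R.iter n) ∧
    (R.iter n).act OnePoint.infty = OnePoint.infty ∧ sphDeriv (R.iter n) OnePoint.infty ≤ 1

/-! ### E. measures -/

open Classical in
/-- upper bound for step functions -/
def S_ATOMT : Prop := ∀ (K : Type u) [NontriviallyNormedField K] [IsUltrametricDist K]
  [IsAlgClosed K] (f : RMap K) (F : Finset (K × ℝ)), (∀ p ∈ F, 0 < p.2) →
  (∀ p ∈ F, ∀ q ∈ F, p ≠ q → ¬ (p.2 = q.2 ∧ ‖p.1 - q.1‖ < p.2)) →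
  ∀ (c₀ : ℝ) (c : K × ℝ → ℝ),
  (∀ x : P1B K, 0 ≤ c₀ + ∑ p ∈ F, if x ∈ ball p.1 p.2 then c p else 0) →
  ∀ (I : Finset (BA K)) (Cl : Finset K), (∀ x ∈ I, XF f x) → (∀ z ∈ Cl, CR f z) →
  ∑ x ∈ I, ((localDeg f (x : P1B K) : ℝ) - if PA f x then 1 else 0) *
    (c₀ + ∑ p ∈ F, if (x : P1B K) ∈ ball p.1 p.2 then c p else 0) +
  ∑ z ∈ Cl, (c₀ + ∑ p ∈ F, if ((cl z : BA K) : P1B K) ∈ ball p.1 p.2 then c p else 0) ≤
    c₀ * f.d + ∑ p ∈ F, c p * Nw f p.1 p.2

open Classical in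
/-- upper bound for the repelling fixed points of `R^n` -/
def S_UBT : Prop := ∀ (K : Type u) [NontriviallyNormedField K] [IsUltrametricDist K]
  [IsAlgClosed K] (R : RMap K), 2 ≤ R.d → ∀ (ρ : Measure (P1B K)), IsProbabilityMeasure ρ →
  IsEquilibrium R ρ → ∀ φ : C(P1B K, ℝ), (∀ x, 0 ≤ φ x) → ∀ ε : ℝ, 0 < ε →
  ∀ᶠ n in atTop, ∀ (I : Finset (BA K)) (Cl : Finset K), (∀ x ∈ I, XF (R.iter n) x) →
    (∀ z ∈ Cl, CR (R.iter n) z) →
    ∑ x ∈ I, ((localDeg (R.iter n) (x : P1B K) : ℝ) - if PA (R.iter n) x then 1 else 0) *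
      φ (x : P1B K) + ∑ z ∈ Cl, φ ((cl z : BA K) : P1B K) ≤
      (R.d : ℝ) ^ n * (∫ x, φ x ∂ρ + ε)

/-- finiteness of the set of repelling fixed points -/
def S_FIN : Prop := ∀ (K : Type u) [NontriviallyNormedField K] [IsUltrametricDist K]
  [IsAlgClosed K] (f : RMap K), 2 ≤ f.d → (RF f).Finite

/-- the theorem for maps with a non-repelling fixed point at `∞` -/
def S_LIM : Prop := ∀ (K : Type u) [NontriviallyNormedField K] [IsUltrametricDist K]
  [IsAlgClosed K] (R : RMap K), 2 ≤ R.d → NRI R → ∀ (ρ : Measure (P1B K)),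
  IsProbabilityMeasure ρ → IsEquilibrium R ρ → Concl R ρ

/-! ### F. conjugation -/

/-- existence of a non-repelling fixed point -/
def S_NRF : Prop := ∀ (K : Type u) [NontriviallyNormedField K] [IsUltrametricDist K]
  [IsAlgClosed K] (R : RMap K), 2 ≤ R.d → NRI R ∨ ∃ c : K, R.Q.eval c ≠ 0 ∧
    R.P.eval c = c * R.Q.eval c ∧ ‖(wr R).eval c‖ ≤ ‖R.Q.eval c‖ ^ 2

/-- algebra of the conjugation -/
def S_CONJ : Prop := ∀ (K : Type u) [NontriviallyNormedField K] [IsUltrametricDist K]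
  [IsAlgClosed K] (R : RMap K) (c : K),
  (mob c).comp (mobi c) = RMap.id K ∧ (mobi c).comp (mob c) = RMap.id K ∧
  (conjM R c).d = R.d ∧
  (∀ n : ℕ, (conjM R c).iter n = (mob c).comp ((R.iter n).comp (mobi c))) ∧
  (R.Q.eval c ≠ 0 → R.P.eval c = c * R.Q.eval c → ‖(wr R).eval c‖ ≤ ‖R.Q.eval c‖ ^ 2 →
    NRI (conjM R c))

/-- chain rule for the spherical derivative at classical points -/
def S_SPHCH : Prop := ∀ (K : Type u) [NontriviallyNormedField K] [IsUltrametricDist K]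
  [IsAlgClosed K] (f g : RMap K) (x : P1B K),
  (x = OnePoint.infty ∨ ∃ c : K, x = ((cl c : BA K) : P1B K)) →
  sphDeriv (f.comp g) x = sphDeriv f (g.act x) * sphDeriv g x

/-- equilibrium measure of the conjugate -/
def S_EQM : Prop := ∀ (K : Type u) [NontriviallyNormedField K] [IsUltrametricDist K]
  [IsAlgClosed K] (R : RMap K) (c : K) (ρ : Measure (P1B K)), 2 ≤ R.d →
  IsProbabilityMeasure ρ → IsEquilibrium R ρ →
  IsProbabilityMeasure (ρ.map (mob c).act) ∧ IsEquilibrium (conjM R c) (ρ.map (mob c).act)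

/-- transport of the conclusion -/
def S_TR : Prop := ∀ (K : Type u) [NontriviallyNormedField K] [IsUltrametricDist K]
  [IsAlgClosed K] (R : RMap K) (c : K) (ρ : Measure (P1B K)), 2 ≤ R.d →
  IsProbabilityMeasure ρ → Concl (conjM R c) (ρ.map (mob c).act) → Concl R ρ

/-- existence of the equilibrium measure -/
def S_EXIST : Prop := ∀ (K : Type u) [NontriviallyNormedField K] [IsUltrametricDist K]
  [IsAlgClosed K] (R : RMap K), 2 ≤ R.d → ∃ ρ : Measure (P1B K),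
  IsProbabilityMeasure ρ ∧ IsEquilibrium R ρ

/-- the theorem -/
def S_MAINT : Prop := ∀ (K : Type u) [NontriviallyNormedField K] [IsUltrametricDist K]
  [IsAlgClosed K] (R : RMap K), 2 ≤ R.d → ∀ (ρ : Measure (P1B K)), IsProbabilityMeasure ρ →
  IsEquilibrium R ρ → Concl R ρ

end Pool.Agent.W851.BE
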