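import Pool.Agent.W851.BE.Stm

/-!
# Project BE: the theorem from its parts
-/

open Polynomial Topology Filter MeasureTheory
open scoped ENNReal

namespace Pool.Agent.W851.BE

open Pool.Agent.W95.BK

universe u

theorem maint (hNRF : S_NRF.{u}) (hCONJ : S_CONJ.{u}) (hEQM : S_EQM.{u}) (hLIM : S_LIM.{u})
    (hTR : S_TR.{u}) : S_MAINT.{u} := by
  intro K _ _ _ R hd ρ hρ hE
  rcases hNRF K R hd with h | ⟨c, h1, h2, h3⟩
  · exact hLIM K R hd h ρ hρ hE
  · obtain ⟨-, -, hcd, -, hN⟩ := hCONJ K R c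
    have hNRI := hN h1 h2 h3
    obtain ⟨hp, he⟩ := hEQM K R c ρ hd hρ hE
    exact hTR K R c ρ hd hρ (hLIM K (conjM R c) (by rw [hcd]; exact hd) hNRI _ hp he)

end Pool.Agent.W851.BE
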