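import Pool.Agent.W851.BE.BK
import Pool.Agent.W851.BE.Maint
import Pool.Agent.W790.BE.ZT
import Pool.Agent.W565.BE.Uniq
import Pool.Agent.W298.BE.Inj
import Pool.Agent.W465.BE.Deg1
import Pool.Agent.W377.BE.Img
import Pool.Agent.W571.BE.BR
import Pool.Agent.W358.BE.P
import Pool.Agent.W571.BE.KK
import Pool.Agent.W85.BE.Sep
import Pool.Agent.W924.BE.HIT
import Pool.Agent.W637.BE.AB
import Pool.Agent.W701.BE.N0
import Pool.Agent.W193.BE.EXH
import Pool.Agent.W789.BE.NBIG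
import Pool.Agent.W381.BE.NRin
import Pool.Agent.W883.BE.AtomT
import Pool.Agent.W863.BE.Ubt
import Pool.Agent.W398.BE.Fin
import Pool.Agent.W962.BE.Nrf
import Pool.Agent.W999.BE.Conj
import Pool.Agent.W654.BE.Eqm
import Pool.Agent.W577.BE.Ld1
import Pool.Agent.W639.BE.Lau
import Pool.Agent.W395.BE.SK
import Pool.Agent.W351.BE.Isom
import Pool.Agent.W369.BE.Irc
import Pool.Agent.W851.BE.Tab
import Pool.Agent.W405.BE.Up
import Pool.Agent.W446.BE.BDD
import Pool.Agent.W230.BE.CR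
import Pool.Agent.W597.BE.Eq
import Pool.Agent.W378.BE.CT
import Pool.Agent.W928.BE.LIM
import Pool.Agent.W561.BE.SPHCH
import Pool.Agent.W589.BE.TR

/-!
# Project BE: assembly
-/

namespace Pool.Agent.W851.BE.Asm

open Pool.Agent.W95.BK Pool.Agent.W851.BE Pool.Agent

universe u

theorem zt : S_ZT.{u} := W790.BE.main BK.val BK.glam
theorem uniq : S_UNIQ.{u} := W565.BE.main BK.t2 BK.dense BK.actc BK.act BK.ldex
theorem inj : S_INJ.{u} := W298.BE.Inj.main BK.ldex BK.actc BK.t2 BK.dense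
theorem ld1 : S_LD1.{u} := W577.BE.Ld1.main BK.iso BK.glam BK.nb BK.act BK.npol BK.ldu
theorem deg1 : S_DEG1.{u} := W465.BEDeg1.main BK.ldex BK.act BK.dense
theorem lau : S_LAU.{u} := W639.BE.Lau.main BK.npol BK.glam
theorem sk : S_SK.{u} := W395.BE.SK.main BK.act zt uniq BK.npol BK.val BK.iso BK.glam BK.nb
theorem img : S_IMG.{u} := W377.BE.Img.main BK.t2 BK.actc zt lau sk
theorem br : S_BR.{u} := W571.BE.BR.main lau sk
theorem p (off : S_OFF.{u}) : S_P.{u} := W358.BE.P.main off zt BK.ldex br img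
theorem k (off : S_OFF.{u}) : S_K.{u} := W571.BE.KK.main zt deg1 BK.chain BK.iter (p off)
theorem k2 (off : S_OFF.{u}) : S_K2.{u} := W571.BE.KK.main2 (k off)
theorem isom : S_ISOM.{u} := W351.BE.Isom.main zt br BK.glam BK.ev BK.t2 BK.actc BK.act
theorem sep' : S_SEP.{u} := W85.BE.Sep.main isom
theorem irc : S_IRC.{u} := W369.BE.irc BK.nwi
theorem nt3 : S_NT3.{u} := W369.BE.nt3 BK.nwi
theorem ta1 : S_TA1.{u} := W851.BE.TabC.ta1 BK.nwi BK.npol BK.act BK.iso zt BK.ldex BK.s1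
theorem tb1 : S_TB1.{u} := W851.BE.TabC.tb1 zt BK.ldex BK.s1 irc
theorem up (off : S_OFF.{u}) : S_UP.{u} := W405.BE.Up.main BK.func BK.chain zt deg1 off
theorem hit (off : S_OFF.{u}) : S_HIT.{u} :=
  W924.BE.main zt inj ta1 tb1 (up off) BK.dvg BK.actc BK.act BK.func BK.iter BK.chain BK.ldex
theorem bdd : S_BDD.{u} :=
  W446.BE.BDD.main BK.val BK.iso BK.glam BK.act BK.func BK.iter BK.npol BK.chain zt sk
theorem ab (off : S_OFF.{u}) : S_AB.{u} :=
  W637.BE.AB.main (hit off) bdd (k2 off) sep' BK.iter BK.func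
theorem n0 : S_N0.{u} := W701.BE.N0.main BK.nwi BK.npol
theorem cr1 : S_CR1.{u} := W230.BE.main1 BK.act BK.nwi
theorem cr2 : S_CR2.{u} := W230.BE.main2 BK.act BK.nwi
theorem eq : S_EQ.{u} := W597.BE.Eq.main BK.sumdir BK.nwroot BK.nwi BK.nbgen BK.gen BK.act BK.actc
  BK.t2 BK.ldex BK.glam
theorem ct : S_CT.{u} :=
  W378.BE.main BK.comb BK.center BK.nwi BK.sumdir BK.s2 BK.s1 BK.glam BK.val cr1
theorem exh : S_EXH.{u} :=
  W193.BE.main BK.nwi BK.center BK.c BK.iso BK.glam BK.ldex zt n0 cr2 eq irc nt3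
theorem nbig : S_NBIG.{u} := W789.BE.NBIG.main
theorem nrin : S_NRIN.{u} := W381.BE.main
theorem atomt : S_ATOMT.{u} := W883.BE.AtomT.main ct BK.iso BK.glam
theorem ubt : S_UBT.{u} := W863.BE.main BK.tl BK.good' BK.rep atomt BK.nwlim BK.nb BK.iter
theorem fin : S_FIN.{u} := W398.BE.main BK.type2 BK.c BK.nwi BK.act
theorem lim (off : S_OFF.{u}) : S_LIM.{u} :=
  W928.BE.main BK.glam ld1 BK.type2 BK.iter fin nrin (ab off) ubt nbig exh
theorem nrf : S_NRF.{u} := W962.BE.Nrf.main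
theorem conj : S_CONJ.{u} := W999.BE.Conj.main
theorem sphch : S_SPHCH.{u} := W561.BE.main BK.act
theorem eqm : S_EQM.{u} := W654.BE.main BK.actc BK.act BK.func BK.chain conj deg1
theorem tr : S_TR.{u} :=
  W589.BE.TR.main BK.act BK.func BK.actc BK.chain deg1 sphch ld1 conj
theorem maint' (off : S_OFF.{u}) : S_MAINT.{u} := maint nrf conj eqm (lim off) tr

end Pool.Agent.W851.BE.Asm
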