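import Pool.Agent.W371.BK.Top
import Pool.Agent.W645.BK.Act
import Pool.Agent.W571.BK.Actc
import Pool.Agent.W103.BK.Func
import Pool.Agent.W407.BK.Iter
import Pool.Agent.W451.BK.NPOL
import Pool.Agent.W298.BK.Gen
import Pool.Agent.W74.BK.NWROOT
import Pool.Agent.W564.BK.Nwi
import Pool.Agent.W721.BK.Center
import Pool.Agent.W410.BK.S2
import Pool.Agent.W101.BK.S1
import Pool.Agent.W140.BK.Comb
import Pool.Agent.W597.BK.C
import Pool.Agent.W193.BK.LC
import Pool.Agent.W73.BK.Ldex
import Pool.Agent.W138.BK.CHAIN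
import Pool.Agent.W55.BK.T1
import Pool.Agent.W352.BKT2
import Pool.Agent.W721.BK.Invx
import Pool.Agent.W397.BK.Green
import Pool.Agent.W298.BK.Path
import Pool.Agent.W174.BK.Ker
import Pool.Agent.W298.BK.Invm
import Pool.Agent.W571.BK.Sumn
import Pool.Agent.W465.BK.MixK
import Pool.Agent.W298.BK.Noat
import Pool.Agent.W293.BK.Nwlim
import Pool.Agent.W293.BK.Tl
import Pool.Agent.W293.BK.Ub
import Pool.Agent.W800.BK.Rep
import Pool.Agent.W800.BK.Atom
import Pool.Agent.W605.BK.SPHC

/-!
# The parts of project BK used by project BE, with all hypotheses discharged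
-/

namespace Pool.Agent.W851.BE.BK

open Pool.Agent.W95.BK Pool.Agent

universe u

theorem ev : S_EV.{u} := W371.BK.ev
theorem val : S_VAL.{u} := W371.BK.val
theorem iso : S_ISO.{u} := W371.BK.iso
theorem glam : S_GLAM.{u} := W371.BK.glam
theorem t2 : S_T2.{u} := W371.BK.t2
theorem nb : S_NB.{u} := W371.BK.nb
theorem dvg : S_DVG.{u} := W298.BK.Gen.dvg
theorem dense : S_DENSE.{u} := W371.BK.dense dvg
theorem avoid : S_AVOID.{u} := W371.BK.avoid
theorem kerc : S_KERC.{u} := W371.BK.kerc
theorem nbgen : S_NBGEN.{u} := W371.BK.nbgen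
theorem act : S_ACT.{u} := W645.BK.main avoid
theorem actc : S_ACTC.{u} := W571.BK.Actc.main ev val iso nb
theorem func : S_FUNC.{u} := W103.BK.main val act avoid
theorem iter : S_ITER.{u} := W407.BK.iter
theorem fibc : S_FIBC.{u} := W407.BK.fibc
theorem npol : S_NPOL.{u} := W451.BK.main
theorem gen : S_GEN.{u} := W298.BK.Gen.gen val glam
theorem nwi : S_NWI.{u} := W564.BK.nwi
theorem nwroot : S_NWROOT.{u} := W74.BK.NWROOT.main npol nwi
theorem sumdir : S_SUMDIR.{u} := W721.BK.Center.sumdir nwroot gen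
theorem center : S_CENTER.{u} := W721.BK.Center.center nwroot nwi gen dvg
theorem s2 : S_S2.{u} := W410.BK.main nwroot nwi gen
theorem s1 : S_S1.{u} := W101.BK.main nwroot gen nbgen nb glam
theorem comb : S_COMB.{u} := W140.BK.comb
theorem c : S_C.{u} := W597.BK.main comb center nwi sumdir s2 s1 glam val
theorem lc : S_LC.{u} := W193.BK.LC.lc val iso glam act actc ev nb avoid
theorem nc : S_NC.{u} := W193.BK.LC.nc val iso glam act actc ev nb avoid dvg
theorem ldu : S_LDU.{u} := W73.BK.ldu dense
theorem ldex : S_LDEX.{u} := W73.BK.ldex lc nc nb dense actc act glam iso ldu avoid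
theorem chain : S_CHAIN.{u} := W138.BK.chain ldex ldu fibc avoid act func actc dense
theorem t1 : S_T1.{u} := W55.BK.T1.main t2 ldex ldu dense actc act avoid
theorem type2 : S_TYPE2.{u} := W352.BKT2.main val iso glam act avoid npol nb dense dvg
theorem invx : S_INVX.{u} := W721.BK.Invx.main ldex chain type2 act func iter glam
theorem green : S_GREEN.{u} := W397.BK.main iter val
theorem path0 : S_PATH0.{u} := W298.BK.Path.path0 green val glam
theorem pathi : S_PATHI.{u} := W298.BK.Path.pathi green val glam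
theorem kgp : S_KGP.{u} := W174.BK.Ker.kgp ev glam iso
theorem sumk : S_SUMK.{u} := W174.BK.Ker.sumk val glam
theorem ker : S_KER.{u} := W174.BK.Ker.ker glam dense t1 kgp sumk kerc green act iter
theorem invm : S_INVM.{u} := W298.BK.Invm.main t1 fibc iter act actc avoid dense glam
theorem sumn : S_SUMN.{u} := W571.BK.Sumn.main green kgp act avoid val glam iter
theorem mixk : S_MIXK.{u} :=
  W465.BK.MixK.main t1 fibc iter act actc avoid sumk sumn ker kerc green glam dense
theorem noat : S_NOAT.{u} := W298.BK.Noat.noat ker kerc green pathi nb ev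
theorem good' : S_GOOD.{u} := W298.BK.Noat.good' ev nb
theorem nwlim : S_NWLIM.{u} := W293.BK.nwlim nwi green ker kerc nb
theorem tl : S_TL.{u} := W293.BK.tl nb iso
theorem rep : S_REP.{u} := W800.BK.Rep.main iso glam
theorem atom : S_ATOM.{u} := W800.BK.Atom.main c iso glam
theorem ub : S_UB.{u} := W293.BK.ub tl good' rep atom nwlim nb iter
theorem sphc : S_SPHC.{u} := W605.BK.SPHC.main ev nb avoid

end Pool.Agent.W851.BE.BK
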