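import Pool.Agent.W851.BE.Asm
import Pool.Agent.W284.BE.Off
import Pool.Agent.W348.BE.Exist
import Pool.Agent.W95.EQ.Asm

/-!
# Project BE: the final theorem
-/

open Polynomial Topology Filter MeasureTheory

namespace Pool.Agent.W851.BE.Asm

open Pool.Agent.W95.BK Pool.Agent.W95.EQ Pool.Agent.W851.BE Pool.Agent

universe u

theorem off : S_OFF.{u} :=
  W284.BE.Off.main BK.act BK.npol BK.nb BK.iso BK.val BK.glam zt uniq

/-- all convergence statements, for every measure which is the limit of the normalised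
pull-backs of the points of `ℍ_K` -/
theorem maintF : S_MAINT.{u} := maint' off

theorem existC : W348.BE.S_EXISTC.{u} :=
  W348.BE.existc BK.val BK.ev BK.iso BK.glam BK.t2 BK.nb BK.dense BK.kerc BK.act BK.iter BK.t1
    BK.sumk BK.green BK.tl BK.rep

theorem final (K : Type u) [NontriviallyNormedField K] [IsUltrametricDist K] [CompleteSpace K]
    [IsAlgClosed K] (R : RMap K) (hd : 2 ≤ R.d) :
    (∃ ρ : Measure (P1B K), IsProbabilityMeasure ρ ∧ IsEquilibrium R ρ ∧ Concl R ρ) ∧
    ∀ ρ : Measure (P1B K), IsEqMeasure R ρ → Concl R ρ := by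
  constructor
  · obtain ⟨ρ, h1, h2⟩ := existC K R hd
    exact ⟨ρ, h1, h2, maintF K R hd ρ h1 h2⟩
  · intro ρ hρ
    exact maintF K R hd ρ hρ.prob (tEQM K R hd ρ hρ)

end Pool.Agent.W851.BE.Asm
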